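import Mathlib

/-!
# Almost prime transversals of the array of `1, ..., p²` (MP_6c4857_nt): definitions

Rows and columns are numbered `0, ..., p - 1`; the entry in row `i` and column `j` is `i p + j + 1`.
-/

namespace Pool.Agent.APT

open Finset

/-- the entry in row `i` and column `j` (numbered from `0`) -/
def cell (p i j : ℕ) : ℕ := i * p + j + 1

/-- the entry on the line `i` in the position `j`: the line is a row for `true`, a column for
`false` -/
def ent (p : ℕ) (r : Bool) (i j : ℕ) : ℕ := if r then cell p i j else cell p j i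

/-- the primes up to `z` -/
def Pz (z : ℕ) : Finset ℕ := (Icc 1 z).filter Nat.Prime

open Classical in
/-- the elements of `A` which are hit by no prime `q ≤ z` -/
noncomputable def sif {ι : Type} (A : Finset ι) (E : ℕ → ι → Prop) (z : ℕ) : Finset ι :=
  A.filter (fun a => ∀ q ∈ Pz z, ¬ E q a)

open Classical in
/-- the number of the elements of `A` which are hit by all primes of `D` is `X ∏ ν(q)/q`, up to
`∏ ν(q)`; this for all sets `D` of primes up to `z` -/
def SV {ι : Type} (A : Finset ι) (E : ℕ → ι → Prop) (X : ℝ) (ν : ℕ → ℕ) (z : ℕ) : Prop :=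
  ∀ D : Finset ℕ, D ⊆ Pz z →
    |((A.filter (fun a => ∀ q ∈ D, E q a)).card : ℝ) - X * ∏ q ∈ D, (ν q : ℝ) / q| ≤
      ∏ q ∈ D, (ν q : ℝ)

/-- admissible densities -/
def NU (ν : ℕ → ℕ) : Prop := ∀ q : ℕ, 1 ≤ ν q ∧ ν q ≤ 2 ∧ (q = 2 → ν q = 1)

/-- `∏_{q ≤ z} (1 - ν(q)/q)` -/
noncomputable def VV (ν : ℕ → ℕ) (z : ℕ) : ℝ := ∏ q ∈ Pz z, (1 - (ν q : ℝ) / q)

/-- the density one -/
def one (_ : ℕ) : ℕ := 1

/-- the number of classes modulo `q` killed by the two forms whose difference is `h` -/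
def nu2 (h : ℤ) (q : ℕ) : ℕ := if (q : ℤ) ∣ h ∨ q = 2 then 1 else 2

open Classical in
/-- Selberg's sum -/
noncomputable def Gs (ν : ℕ → ℕ) (z : ℕ) (R : ℝ) : ℝ :=
  ∑ d ∈ (Icc 1 ⌊R⌋₊).filter (fun d : ℕ => Squarefree d ∧ ∀ q : ℕ, q.Prime → q ∣ d → q ∈ Pz z),
    ∏ q ∈ d.primeFactors, ((ν q : ℝ) / q) / (1 - (ν q : ℝ) / q)

/-- the weight of two rows (columns) with the difference `h`, `h` even -/
noncomputable def wt (z : ℕ) (h : ℤ) : ℝ :=
  ∏ q ∈ (Pz z).erase 2, (1 - (nu2 h q : ℝ) / q) / (1 - 1 / (q : ℝ)) ^ 2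

open Classical in
/-- the neighbours of a set `S` -/
noncomputable def nbh {α β : Type} [Fintype β] (E : α → β → Prop) (S : Finset α) : Finset β :=
  univ.filter (fun b => ∃ a ∈ S, E a b)

open Classical in
/-- the common neighbours of `a` and `a'` -/
noncomputable def cod {α β : Type} [Fintype β] (E : α → β → Prop) (a a' : α) : Finset β :=
  univ.filter (fun b => E a b ∧ E a' b)

/-- no prime factor up to `z` and not one -/
def Ro (z n : ℕ) : Prop := 1 < n ∧ ∀ q ∈ Pz z, ¬ q ∣ n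

end Pool.Agent.APT
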